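import Pool.Agent.Lib.H42M.E03
import Pool.Agent.Lib.H42M.A08
import Pool.Agent.Lib.H42M.A09

/-!
# MP_33da41_co: longest simple edge paths on stacked polytopes, the exact function

For every `l ≥ 5`, `nn l + 2` is the largest number of vertices of a stacked polytope all of whose
simple edge paths have fewer than `l` vertices. This determines the function of Moser's question for
the class of stacked polytopes for every number `n` of vertices, its lower and upper limits and all
its limit points. Definitions: `Lib/H28P/Poly.lean` (`Stacked`, `EdgePath`, `fStacked`, `alpha`),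
`Lib/H42M/Defs.lean` (`nn`). Proofs: `Lib/H42M`, `Lib/H28P`.
-/

set_option autoImplicit false

namespace Pool.Agent.Results.MP_33da41_co.StackedExact

open Filter Pool.Agent.Lib.H28P Pool.Agent.Lib.H42M

/-- The function of Moser's question for stacked polytopes, divided by `n ^ alpha`. -/
noncomputable def ratio (n : ℕ) : ℝ := (fStacked n : ℝ) / (n : ℝ) ^ alpha

/-- The constant of the upper limit. -/
noncomputable def Lambda : ℝ := sSup {x : ℝ | ∃ l : ℕ, 6 ≤ l ∧ x = (l : ℝ) / (nn l : ℝ) ^ alpha}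

theorem lambda_eq : Lambda = Lam := by
  unfold Lambda Lam
  congr 1
  ext x
  constructor
  · rintro ⟨l, hl, rfl⟩
    exact ⟨l, hl, rfl⟩
  · rintro ⟨l, hl, rfl⟩
    exact ⟨l, hl, rfl⟩

theorem result :
    -- the exact function
    (∀ n : ℕ, 4 ≤ n → IsLeast {l : ℕ | n ≤ nn l + 2} (fStacked n + 1)) ∧
    (∀ l : ℕ, l ≤ 11 → nn l = l - 3) ∧
    (∀ j m r : ℕ, 6 ≤ m → m ≤ 11 → r ≤ 2 ^ j →
      nn (2 ^ j * m + r) = 3 ^ j * (m - 3) + ∑ i ∈ Finset.range r, 2 ^ (Nat.digits 2 i).sum) ∧
    -- lower limit, upper limit, limit points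
    liminf ratio atTop = 8 / 5 ^ alpha ∧
    limsup ratio atTop = Lambda ∧ 3.076 < Lambda ∧ Lambda ≤ 3.077 ∧
    (¬ ∃ L : ℝ, Tendsto ratio atTop (nhds L)) ∧
    (∀ c : ℝ, MapClusterPt c atTop ratio ↔ 8 / 5 ^ alpha ≤ c ∧ c ≤ Lambda) ∧
    -- the lower bound for all `n`
    (∀ n : ℕ, 4 ≤ n → 8 / 5 ^ alpha * ((n : ℝ) - 2) ^ alpha ≤ (fStacked n : ℝ) + 1) := by
  rw [lambda_eq]
  have hex := fStacked_iff
  exact ⟨fStacked_isLeast, fun l hl => nn_small hl, nn_formula, a06_liminf hex, a06_limsup hex,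
    lt_Lam, Lam_lt, a06_no_limit hex, a09_cluster hex, a06_lower hex⟩

end Pool.Agent.Results.MP_33da41_co.StackedExact
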