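import Pool.Agent.Lib.H28R.R05

/-!
# MP_33da41_co: upper bounds for the function of Moser

Bounds for all convex polyhedra in space, by a realisation of stacked polytopes with short paths.
Proofs: `Pool/Agent/Lib/H28R`, `Pool/Agent/Lib/H42M` and `Pool/Agent/Lib/H28P`.
-/

set_option autoImplicit false

namespace Pool.Agent.Results.MP_33da41_co.UpperBound

open Pool.Agent.Lib.H28P Pool.Agent.Lib.H42M Pool.Agent.Lib.H28R

theorem result :
    (∀ n l : ℕ, 4 ≤ n → n ≤ nn l + 2 → moser n + 1 ≤ l) ∧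
    (∀ n : ℕ, 8 ≤ n → (moser n : ℝ) ≤ 3.077 * (n : ℝ) ^ alpha) ∧
    (Filter.limsup (fun n : ℕ => (moser n : ℝ) / (n : ℝ) ^ alpha) Filter.atTop ≤ 3.077) ∧
    (Filter.liminf (fun n : ℕ => (moser n : ℝ) / (n : ℝ) ^ alpha) Filter.atTop
      ≤ 8 / 5 ^ alpha) :=
  ⟨moser_add_one_le, moser_le_const, moser_limsup.trans Lam_lt, moser_liminf⟩

end Pool.Agent.Results.MP_33da41_co.UpperBound
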